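import Mathlib
import Pool.Agent.Helper160.R3Dual
import Pool.Agent.Helper214.PavDual

set_option autoImplicit false

namespace Pool.Agent.Results.MP_c59e09_co.RankThreeAndCopaving

open Classical in
/-- `M` is independence-correlated: `i_ef i ≤ i_e i_f`. -/
def IndepCorrelated {α : Type} [Fintype α] (M : Matroid α) : Prop :=
  ∀ z : α → ℝ, (∀ x, 0 < z x) → ∀ e f : α, e ≠ f →
    (∑ A : Finset α, if M.Indep (A : Set α) ∧ e ∈ A ∧ f ∈ A then ∏ x ∈ A, z x else 0) *
      (∑ A : Finset α, if M.Indep (A : Set α) then ∏ x ∈ A, z x else 0) ≤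
    (∑ A : Finset α, if M.Indep (A : Set α) ∧ e ∈ A then ∏ x ∈ A, z x else 0) *
      (∑ A : Finset α, if M.Indep (A : Set α) ∧ f ∈ A then ∏ x ∈ A, z x else 0)

open Classical in
/-- `M` is spanning-correlated: `s_ef s ≤ s_e s_f`. -/
def SpanningCorrelated {α : Type} [Fintype α] (M : Matroid α) : Prop :=
  ∀ z : α → ℝ, (∀ x, 0 < z x) → ∀ e f : α, e ≠ f →
    (∑ A : Finset α, if M.Spanning (A : Set α) ∧ e ∈ A ∧ f ∈ A then ∏ x ∈ A, z x else 0) *
      (∑ A : Finset α, if M.Spanning (A : Set α) then ∏ x ∈ A, z x else 0) ≤
    (∑ A : Finset α, if M.Spanning (A : Set α) ∧ e ∈ A then ∏ x ∈ A, z x else 0) *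
      (∑ A : Finset α, if M.Spanning (A : Set α) ∧ f ∈ A then ∏ x ∈ A, z x else 0)

/-- `M` is paving: every set of elements smaller than a base is independent. -/
def Paving {α : Type} [Fintype α] (M : Matroid α) : Prop :=
  ∀ A B : Finset α, (A : Set α) ⊆ M.E → M.IsBase (B : Set α) → A.card < B.card →
    M.Indep (A : Set α)

/-- (1) Every matroid of rank three is spanning-correlated. (2) If the dual of `M` is paving and
`M` is independence-correlated then `M` is spanning-correlated. (3) If `M` and its dual are paving
(sparse paving matroids, of any rank) then `M` is independence-correlated if and only if it is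
spanning-correlated. -/
theorem result :
    (∀ (α : Type) [Fintype α] (M : Matroid α), M.eRank = 3 → SpanningCorrelated M) ∧
    (∀ (α : Type) [Fintype α] (M : Matroid α), Paving M✶ →
      IndepCorrelated M → SpanningCorrelated M) ∧
    (∀ (α : Type) [Fintype α] (M : Matroid α), Paving M → Paving M✶ →
      (IndepCorrelated M ↔ SpanningCorrelated M)) := by
  classical
  have hI : ∀ (α : Type) [Fintype α] (M : Matroid α), IndepCorrelated M ↔
      Helper214.PavMain.NegCorr (fun A : Finset α => M.Indep (A : Set α)) := by
    intro α _ M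
    unfold IndepCorrelated Helper214.PavMain.NegCorr
    refine forall_congr' fun z => forall_congr' fun hz => forall_congr' fun e =>
      forall_congr' fun f => forall_congr' fun hef => ?_
    constructor <;> intro h <;> convert h
  have hS : ∀ (α : Type) [Fintype α] (M : Matroid α), SpanningCorrelated M ↔
      Helper214.PavMain.NegCorr (fun A : Finset α => M.Spanning (A : Set α)) := by
    intro α _ M
    unfold SpanningCorrelated Helper214.PavMain.NegCorr
    refine forall_congr' fun z => forall_congr' fun hz => forall_congr' fun e =>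
      forall_congr' fun f => forall_congr' fun hef => ?_
    constructor <;> intro h <;> convert h
  have h2 : ∀ (α : Type) [Fintype α] (M : Matroid α), Paving M✶ →
      IndepCorrelated M → SpanningCorrelated M := by
    intro α _ M hM hi
    rw [hS]
    exact Helper214.PavMain.paving_spanning hM
      (Helper214.PavMain.base_of_indep M ((hI α M).1 hi))
  refine ⟨fun α _ M h3 z hz e f hef =>
      Pool.Agent.Helper160.R3.rank3_spanning M h3 z hz e f hef, h2, ?_⟩
  intro α _ M hM hM'
  refine ⟨h2 α M hM', fun hs => ?_⟩
  rw [hI]
  exact Helper214.PavMain.paving_indep hM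
    (Helper214.PavMain.base_of_spanning M ((hS α M).1 hs))

end Pool.Agent.Results.MP_c59e09_co.RankThreeAndCopaving
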